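import Pool.Agent.J4.H78.AT.Piece

set_option autoImplicit false

open Classical

namespace Pool.Agent.J4.H78.AT

open Pool.Agent.J4.H78.GL

section

variable {U : Type}

/-- `w` is in the component of `v` in `T - R` -/
def K (T : SimpleGraph U) (R : Set U) (v w : U) : Prop :=
  ∃ p : T.Walk v w, ∀ z ∈ p.support, z ∉ R

/-- the component of `v` and its root neighbours -/
def S (T : SimpleGraph U) (R : Set U) (v : U) : Set U :=
  {w | K T R v w ∨ (w ∈ R ∧ ∃ a, K T R v a ∧ T.Adj a w)}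

variable {T : SimpleGraph U} {R : Set U}

lemma K_not {v w : U} (h : K T R v w) : w ∉ R := by
  obtain ⟨p, hp⟩ := h
  exact hp w p.end_mem_support

lemma K_refl {v : U} (h : v ∉ R) : K T R v v := by
  refine ⟨SimpleGraph.Walk.nil, ?_⟩
  intro z hz
  rw [SimpleGraph.Walk.support_nil, List.mem_singleton] at hz
  rw [hz]
  exact h

lemma K_step {v w w' : U} (h : K T R v w) (hw : T.Adj w w') (hw' : w' ∉ R) : K T R v w' := by
  obtain ⟨p, hp⟩ := h
  refine ⟨p.concat hw, ?_⟩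
  intro z hz
  rw [SimpleGraph.Walk.support_concat, List.mem_append, List.mem_singleton] at hz
  rcases hz with hz | hz
  · exact hp z hz
  · rw [hz]
    exact hw'

lemma mem_S {v w : U} (h : w ∈ S T R v) (hw : w ∉ R) : K T R v w := by
  rcases h with h | h
  · exact h
  · exact absurd h.1 hw

/-- the piece of `v` -/
abbrev pc (T : SimpleGraph U) (R : Set U) (v : U) : SimpleGraph (S T R v) := T.induce (S T R v)

/-- the roots of the piece of `v` -/
def rt (T : SimpleGraph U) (R : Set U) (v : U) : Set (S T R v) := {w | w.1 ∈ R}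

lemma lift {v : U} {a b : U} (p : T.Walk a b) (hp : ∀ z ∈ p.support, z ∉ R) (ha : K T R v a) :
    ∃ (h1 : a ∈ S T R v) (h2 : b ∈ S T R v) (h3 : (⟨a, h1⟩ : S T R v) ∈ (rt T R v)ᶜ)
      (h4 : (⟨b, h2⟩ : S T R v) ∈ (rt T R v)ᶜ),
      ((pc T R v).induce (rt T R v)ᶜ).Reachable ⟨⟨a, h1⟩, h3⟩ ⟨⟨b, h2⟩, h4⟩ := by
  induction p with
  | @nil u =>
    exact ⟨Or.inl ha, Or.inl ha, fun h => K_not ha h, fun h => K_not ha h,
      SimpleGraph.Reachable.refl _⟩
  | @cons u w x h p ih =>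
    have hw : w ∉ R := hp w (by
      rw [SimpleGraph.Walk.support_cons]
      exact List.mem_cons_of_mem _ p.start_mem_support)
    have hKw : K T R v w := K_step ha h hw
    obtain ⟨h1, h2, h3, h4, h5⟩ := ih (fun z hz => hp z (by
      rw [SimpleGraph.Walk.support_cons]
      exact List.mem_cons_of_mem _ hz)) hKw
    refine ⟨Or.inl ha, h2, fun h => K_not ha h, h4, SimpleGraph.Reachable.trans ?_ h5⟩
    exact SimpleGraph.Adj.reachable (by exact h)

lemma pc_conn' {v : U} (hv : v ∉ R) : ((pc T R v).induce (rt T R v)ᶜ).Connected := by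
  have h0 : v ∈ S T R v := Or.inl (K_refl hv)
  have h00 : (⟨v, h0⟩ : S T R v) ∈ (rt T R v)ᶜ := hv
  have key : ∀ x : ((rt T R v)ᶜ : Set (S T R v)),
      ((pc T R v).induce (rt T R v)ᶜ).Reachable ⟨⟨v, h0⟩, h00⟩ x := by
    rintro ⟨⟨x, hx⟩, hx'⟩
    obtain ⟨p, hp⟩ := mem_S hx hx'
    obtain ⟨h1, h2, h3, h4, h5⟩ := lift p hp (K_refl hv)
    exact h5
  have : Nonempty ((rt T R v)ᶜ : Set (S T R v)) := ⟨⟨⟨v, h0⟩, h00⟩⟩
  exact ⟨fun x y => (key x).symm.trans (key y)⟩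

lemma pc_conn {v : U} (hv : v ∉ R) : (pc T R v).Connected := by
  have h1 := pc_conn' (T := T) hv
  have h0 : v ∈ S T R v := Or.inl (K_refl hv)
  have h2 : ∀ x (hx : x ∉ rt T R v), (pc T R v).Reachable ⟨v, h0⟩ x := by
    intro x hx
    have h3 := h1.preconnected ⟨⟨v, h0⟩, hv⟩ ⟨x, hx⟩
    let φ : (pc T R v).induce (rt T R v)ᶜ →g pc T R v := ⟨Subtype.val, fun {a b} h => h⟩
    exact h3.map φ
  have key : ∀ x : S T R v, (pc T R v).Reachable ⟨v, h0⟩ x := by
    intro x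
    by_cases hx : x ∈ rt T R v
    · obtain ⟨x, hx'⟩ := x
      rcases hx' with h | ⟨h, a, ha, hax⟩
      · exact absurd hx (fun h' => K_not h h')
      · have h3 : (pc T R v).Adj ⟨a, Or.inl ha⟩ ⟨x, Or.inr ⟨h, a, ha, hax⟩⟩ := hax
        exact (h2 ⟨a, Or.inl ha⟩ (fun h' => K_not ha h')).trans h3.reachable
    · exact h2 x hx
  have : Nonempty (S T R v) := ⟨⟨v, h0⟩⟩
  exact ⟨fun x y => (key x).symm.trans (key y)⟩

lemma exit {v : U} {a b : U} (p : T.Walk a b) (ha : K T R v a) (hb : b ∈ R) :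
    ∃ x, K T R v x ∧ ∃ r ∈ R, T.Adj x r := by
  induction p with
  | nil => exact absurd hb (K_not ha)
  | @cons u w x h p ih =>
    by_cases hw : w ∈ R
    · exact ⟨u, ha, w, hw, h⟩
    · exact ih (K_step ha h hw) hb

lemma pc_piece (hT : T.IsTree) (hR : R.Nonempty) (hind : ∀ u ∈ R, ∀ v ∈ R, ¬ T.Adj u v)
    {v : U} (hv : v ∉ R) : IsPiece (pc T R v) (rt T R v) where
  tree := ⟨pc_conn hv, hT.2.induce _⟩
  ne := by
    obtain ⟨r, hr⟩ := hR
    obtain ⟨p⟩ := hT.1.preconnected v r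
    obtain ⟨x, hx, r', hr', h⟩ := exit p (K_refl hv) hr
    exact ⟨⟨r', Or.inr ⟨hr', x, hx, h⟩⟩, hr'⟩
  ne' := ⟨⟨v, Or.inl (K_refl hv)⟩, hv⟩
  indep := fun u hu w hw h => hind u.1 hu w.1 hw h
  conn := pc_conn' hv

/-- the bound for all rooted trees -/
theorem all_trees [Finite U] (hT : T.IsTree) (hR : R.Nonempty) (hRc : Rᶜ.Nonempty)
    (hind : ∀ u ∈ R, ∀ v ∈ R, ¬ T.Adj u v) {k : ℕ} (hk1 : 1 ≤ k)
    (hk : ∀ a, a ∉ R → ({u | u ∈ R ∧ T.Adj a u} : Set U).ncard ≤ k) :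
    BlowupBound T R (2 - 1 / ((k : ℝ) + 1)) := by
  obtain ⟨C⟩ := hT.colorable_two
  set cT : U → Bool := fun v => decide (C v = 0) with hcT
  have hcT' : ∀ u v, T.Adj u v → cT u ≠ cT v := by
    intro u v h h'
    have h1 := C.valid h
    simp only [hcT, decide_eq_decide] at h'
    apply h1
    have h2 : ∀ x y : Fin 2, (x = 0 ↔ y = 0) → x = y := by decide
    exact h2 _ _ h'
  have hα : (1 : ℝ) ≤ 2 - 1 / ((k : ℝ) + 1) := by
    have : 1 / ((k : ℝ) + 1) ≤ 1 := by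
      rw [div_le_one (by positivity)]
      have : (0 : ℝ) ≤ k := by positivity
      linarith
    linarith
  have hG : GluedF (fun v : (Rᶜ : Set U) => pc T R v.1) (fun v => rt T R v.1)
      (fun v w => cT w.1) T R cT := by
    refine ⟨hT, hR, hRc, hind, ?_, hcT', ?_⟩
    · intro i a b h
      exact hcT' _ _ h
    · intro v hv
      refine ⟨⟨v, hv⟩, Subtype.val, ⟨Subtype.val_injective, fun a => Iff.rfl, fun a b h => h, ?_,
        fun a => rfl⟩, ⟨v, Or.inl (K_refl hv)⟩, rfl⟩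
      intro a ha u hu
      have hKa : K T R v a.1 := mem_S a.2 ha
      by_cases huR : u ∈ R
      · exact ⟨⟨u, Or.inr ⟨huR, a.1, hKa, hu⟩⟩, hu, rfl⟩
      · exact ⟨⟨u, Or.inl (K_step hKa hu huR)⟩, hu, rfl⟩
  refine glue2 (fun v => pc_piece hT hR hind v.2) hG hα fun v => ?_
  refine in_swap (pc_piece hT hR hind v.2) (fun a b h => hcT' _ _ h) hk1 ?_
  intro a ha
  refine le_trans ?_ (hk a.1 ha)
  rw [← Set.ncard_image_of_injective _ (Subtype.val_injective (p := fun x => x ∈ S T R v.1))]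
  refine Set.ncard_le_ncard ?_ (Set.toFinite _)
  rintro _ ⟨q, ⟨h1, h2⟩, rfl⟩
  exact ⟨h1, h2⟩

/-- in a balanced rooted tree every non-root has at most `ρ` root neighbours -/
lemma roots_le [Finite U] {ρ : ℝ}
    (hb : BalancedDensity T R ρ) (a : U) (ha : a ∉ R) :
    (({u | u ∈ R ∧ T.Adj a u} : Set U).ncard : ℝ) ≤ ρ := by
  obtain ⟨h1, h2⟩ := hb
  set D : Set U := {u | u ∈ R ∧ T.Adj a u} with hD
  set S' : Set U := Rᶜ \ {a} with hS'
  have hle : eT T S' + D.ncard ≤ eT T Rᶜ := by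
    have h3 : D.ncard = ((fun u => s(a, u)) '' D).ncard := by
      rw [Set.InjOn.ncard_image]
      intro u hu v hv h
      have h' : s(a, u) = s(a, v) := h
      rw [Sym2.eq_iff] at h'
      rcases h' with h' | h'
      · exact h'.2
      · rw [h'.2, ← h'.1]
    unfold eT
    rw [h3, ← Set.ncard_union_eq _ (Set.toFinite _) (Set.toFinite _)]
    · refine Set.ncard_le_ncard ?_ (Set.toFinite _)
      rintro e (⟨he, v, hv, hve⟩ | ⟨u, hu, rfl⟩)
      · exact ⟨he, v, hv.1, hve⟩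
      · exact ⟨hu.2, a, ha, Sym2.mem_mk_left _ _⟩
    · rw [Set.disjoint_left]
      rintro e ⟨he, v, hv, hve⟩ ⟨u, hu, rfl⟩
      rw [Sym2.mem_iff] at hve
      rcases hve with rfl | rfl
      · exact hv.2 rfl
      · exact hv.1 hu.1
  have hm : (Rᶜ : Set U).ncard = S'.ncard + 1 := by
    rw [hS', Set.ncard_sdiff_singleton_add_one ha (Set.toFinite _)]
  have hmpos : (0 : ℝ) < ((Rᶜ : Set U).ncard : ℝ) := by
    rw [hm]
    positivity
  have h4 : ρ * ((Rᶜ : Set U).ncard : ℝ) = (eT T Rᶜ : ℝ) := by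
    rw [h1]
    field_simp
  have hle' : (eT T S' : ℝ) + (D.ncard : ℝ) ≤ (eT T Rᶜ : ℝ) := by exact_mod_cast hle
  have h5 : ρ * (S'.ncard : ℝ) ≤ (eT T S' : ℝ) := by
    by_cases hS : S'.Nonempty
    · have h6 := h2 S' hS (fun x hx => hx.1)
      have h7 : (0 : ℝ) < (S'.ncard : ℝ) := by exact_mod_cast (Set.ncard_pos (Set.toFinite S')).mpr hS
      rwa [le_div_iff₀ h7] at h6
    · rw [Set.not_nonempty_iff_eq_empty] at hS
      rw [hS, Set.ncard_empty]
      simp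
  rw [hm] at h4
  push_cast at h4
  linarith

theorem balanced_trees [Finite U] (hT : T.IsTree) (hR : R.Nonempty) (hRc : Rᶜ.Nonempty)
    (hind : ∀ u ∈ R, ∀ v ∈ R, ¬ T.Adj u v) {ρ : ℝ} (hb : BalancedDensity T R ρ) :
    BlowupBound T R (2 - 1 / ((⌊ρ⌋₊ : ℝ) + 1)) := by
  have h1 : 1 ≤ ρ := one_le_density hT hR hRc hind hb
  refine all_trees hT hR hRc hind (k := ⌊ρ⌋₊) ?_ fun a ha => ?_
  · exact Nat.one_le_floor_iff ρ |>.mpr h1
  · exact Nat.le_floor (roots_le hb a ha)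

end

end Pool.Agent.J4.H78.AT
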