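import Pool.Agent.J4.H78.AT.Int

set_option autoImplicit false

open Classical

namespace Pool.Agent.J4.H78.AT

open Pool.Agent.J4.H78.GL

lemma good_restrict {W W' V : Type} {P : SimpleGraph W} {Q : Set W} {c : W → Bool}
    {P' : SimpleGraph W'} {Q' : Set W'} {c' : W' → Bool} {L : ℕ}
    {H : SimpleGraph V} {col : V → Bool} {σ : Bool} (j : W → W') (hj : Function.Injective j)
    (hjQ : ∀ a, j a ∈ Q' ↔ a ∈ Q) (hja : ∀ a b, P.Adj a b → P'.Adj (j a) (j b))
    (hjc : ∀ a, c' (j a) = c a) {r : Q' → V} (hr : Good P' Q' c' L H col σ r) :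
    Good P Q c L H col σ (fun q => r ⟨j q, (hjQ q).mpr q.2⟩) := by
  obtain ⟨φ, h1, h2, h3, h4, h5⟩ := hr
  refine ⟨fun l a => φ l (j a), fun l => (h1 l).comp hj, fun l a b hab => h2 l _ _ (hja a b hab),
    fun l q => h3 l ⟨j q, (hjQ q).mpr q.2⟩, ?_, ?_⟩
  · intro l a
    show col (φ l (j a)) = _
    rw [h4, hjc]
  · intro l l' a b hll ha hb
    exact h5 l l' _ _ hll (fun h => ha ((hjQ a).mp h)) (fun h => hb ((hjQ b).mp h))

lemma core_restrict {W W' V : Type} {P : SimpleGraph W} {Q : Set W} {c : W → Bool}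
    {P' : SimpleGraph W'} {Q' : Set W'} {c' : W' → Bool} {L M : ℕ}
    {H : SimpleGraph V} {col : V → Bool} {σ : Bool} (j : W → W') (hj : Function.Injective j)
    (hjQ : ∀ a, j a ∈ Q' ↔ a ∈ Q) (hja : ∀ a b, P.Adj a b → P'.Adj (j a) (j b))
    (hjc : ∀ a, c' (j a) = c a) {r : Q' → V} (hr : Core M (Good P' Q' c' L H col σ) r) :
    ∃ r', Core M (Good P Q c L H col σ) r' := by
  refine ⟨fun q => r ⟨j q, (hjQ q).mpr q.2⟩, fun r' => ∃ r, Core M (Good P' Q' c' L H col σ) r ∧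
    r' = fun q : Q => r ⟨j q, (hjQ q).mpr q.2⟩, ?_, ?_, ⟨r, hr, rfl⟩⟩
  · rintro _ ⟨r, hr, rfl⟩
    exact good_restrict j hj hjQ hja hjc (core_sub hr)
  · rintro _ ⟨r, hr, rfl⟩ i Z hZ
    obtain ⟨r1, h1, h2, h3⟩ := core_rich M _ r hr ⟨j i, (hjQ i).mpr i.2⟩ Z hZ
    refine ⟨fun q => r1 ⟨j q, (hjQ q).mpr q.2⟩, ⟨r1, h1, rfl⟩, h2, fun i' hi' => h3 _ ?_⟩
    intro h
    apply hi'
    exact Subtype.ext (hj (congrArg Subtype.val h))

/-- the rooted tree `(P, Q)` is contained in a rooted graph with a colour exchanging automorphism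
for which the bound holds -/
def InSwap {W : Type} (P : SimpleGraph W) (Q : Set W) (c : W → Bool) (α : ℝ) : Prop :=
  ∃ (W' : Type) (_ : Finite W') (P' : SimpleGraph W') (Q' : Set W') (c' : W' → Bool) (j : W → W'),
    P'.Connected ∧ Q'.Nonempty ∧ (∀ q ∈ Q', ∃ a, P'.Adj q a) ∧
    (∀ a b, P'.Adj a b → c' a ≠ c' b) ∧ BlowupBound P' Q' α ∧ Swap P' Q' c' ∧
    Function.Injective j ∧ (∀ a, j a ∈ Q' ↔ a ∈ Q) ∧
    (∀ a b, P.Adj a b → P'.Adj (j a) (j b)) ∧ ∀ a, c' (j a) = c a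

theorem glue2 {ι : Type} [Finite ι] {W : ι → Type} [∀ i, Finite (W i)] {U : Type} [Finite U]
    {P : ∀ i, SimpleGraph (W i)} {Q : ∀ i, Set (W i)} {c : ∀ i, W i → Bool}
    {T : SimpleGraph U} {R : Set U} {cT : U → Bool} (hP : ∀ i, IsPiece (P i) (Q i))
    (hG : GluedF P Q c T R cT) {α : ℝ} (hα : 1 ≤ α)
    (hS : ∀ i, InSwap (P i) (Q i) (c i) α) :
    BlowupBound T R α := by
  have := Fintype.ofFinite ι
  have := fun i => Fintype.ofFinite (W i)
  have := Fintype.ofFinite U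
  have hnb : ∀ i, ∀ q ∈ Q i, ∃ a, (P i).Adj q a := fun i => nb_of_piece (hP i)
  intro t ht
  set M := t * Fintype.card U with hM
  set L := t * Fintype.card U + t with hL
  have hcl : ∀ i, ∃ K : ℝ, 0 ≤ K ∧ ∀ (n : ℕ) (H : SimpleGraph (Fin n)) (col : Fin n → Bool),
      (∀ x y, H.Adj x y → col x ≠ col y) → K * (n : ℝ) ^ α < ((arcs H).card : ℝ) →
      ∀ σ, ∃ r, Core M (Good (P i) (Q i) (c i) L H col σ) r := by
    intro i
    obtain ⟨W', _, P', Q', c', j, h1, h2, h3, h4, h5, h6, h7, h8, h9, h10⟩ := hS i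
    have := Fintype.ofFinite W'
    obtain ⟨K, hK0, hK⟩ := claim h1 h2 h3 h4 hα h5 L M (by omega)
    refine ⟨K, hK0, fun n H col hcol hn σ => ?_⟩
    obtain ⟨σ', r, hr⟩ := hK n H col hcol hn
    have h11 : ∃ r, Core M (Good P' Q' c' L H col σ) r := by
      by_cases hσ : σ' = σ
      · exact ⟨r, hσ ▸ hr⟩
      · have : σ = !σ' := by revert hσ; cases σ <;> cases σ' <;> simp
        rw [this]
        exact core_swap h6 hr
    obtain ⟨r', hr'⟩ := h11
    exact core_restrict j h7 h8 h9 h10 hr'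
  choose K0 hK0 hK using hcl
  set K : ℝ := ∑ i, K0 i with hKdef
  have hKle : ∀ i, K0 i ≤ K := fun i =>
    Finset.single_le_sum (f := K0) (fun j _ => hK0 j) (Finset.mem_univ i)
  have hKnn : 0 ≤ K := Finset.sum_nonneg fun i _ => hK0 i
  set μ : ℝ := (Fintype.card U * Fintype.card (Σ i, Q i) + 1 : ℝ) with hμ
  refine ⟨μ * K, fun n G hno => ?_⟩
  obtain ⟨H, col, hHG, hcol, hhalf⟩ := bip G
  by_contra hcon
  push Not at hcon
  apply hno
  have e1 : μ * (K * (n : ℝ) ^ α) < ((arcs H).card : ℝ) := by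
    have h1 : (G.edgeSet.ncard : ℝ) ≤ ((arcs H).card : ℝ) := by
      rw [arcs_card] at hhalf
      have : G.edgeSet.ncard ≤ (arcs H).card := by omega
      exact_mod_cast this
    have h2 : μ * (K * (n : ℝ) ^ α) = μ * K * (n : ℝ) ^ α := by ring
    rw [h2]
    linarith
  refine run hG (fun i => (hP i).tree.1.preconnected) (fun i => (hP i).conn.preconnected)
    (fun i => (hP i).ne) (fun i => (hP i).indep) hnb ht le_rfl le_rfl
    hHG (col := col) (σ := false) (κ := K * (n : ℝ) ^ α) ?_ e1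
  intro i H' hH' hc'
  refine hK i n H' col (fun x y h => hcol x y (hH' h)) (lt_of_le_of_lt ?_ hc') false
  exact mul_le_mul_of_nonneg_right (hKle i) (by positivity)

section

variable {U : Type}

/-- the colours of the doubled tree with roots -/
def cDbl {k : ℕ} (cF : U → Bool) : (U × Bool) ⊕ ((U × Bool) × Fin k) → Bool :=
  Sum.elim (fun x => xor x.2 (cF x.1)) (fun y => ! xor y.1.2 (cF y.1.1))

lemma swap_dbl {k : ℕ} (F : SimpleGraph U) (u0 : U) (cF : U → Bool) :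
    Swap (pend (dbl F u0) (Prod.fst : (U × Bool) × Fin k → U × Bool)) (Set.range Sum.inr)
      (cDbl cF) := by
  let e0 : U × Bool ≃ U × Bool :=
    ⟨fun x => (x.1, ! x.2), fun x => (x.1, ! x.2), fun x => by simp, fun x => by simp⟩
  refine ⟨Equiv.sumCongr e0 (Equiv.prodCongr e0 (Equiv.refl _)), ?_, ?_, ?_⟩
  · rintro (⟨u, b⟩ | ⟨⟨u, b⟩, i⟩) (⟨v, c⟩ | ⟨⟨v, c⟩, i'⟩) h
    · rcases h with ⟨h1, h2⟩ | ⟨h1, h2, h3⟩
      · exact Or.inl ⟨by simp only [e0, Equiv.coe_fn_mk]; exact congrArg _ h1, h2⟩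
      · exact Or.inr ⟨by
          simp only [e0, Equiv.coe_fn_mk]
          intro h
          exact h1 (Bool.not_inj h), h2, h3⟩
    · have h' : ((v, c) : U × Bool) = (u, b) := h
      show (((v, c).1, ! (v, c).2) : U × Bool) = ((u, b).1, ! (u, b).2)
      rw [h']
    · have h' : ((u, b) : U × Bool) = (v, c) := h
      show (((u, b).1, ! (u, b).2) : U × Bool) = ((v, c).1, ! (v, c).2)
      rw [h']
    · exact h
  · rintro (x | x)
    · simp
    · simp
  · rintro (⟨u, b⟩ | ⟨⟨u, b⟩, i⟩)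
    · show xor (! b) (cF u) = ! xor b (cF u)
      cases b <;> simp
    · show (! xor (! b) (cF u)) = ! ! xor b (cF u)
      cases b <;> simp

lemma cDbl_proper {k : ℕ} {F : SimpleGraph U} {u0 : U} {cF : U → Bool}
    (hc : ∀ a b, F.Adj a b → cF a ≠ cF b)
    (x y : (U × Bool) ⊕ ((U × Bool) × Fin k))
    (h : (pend (dbl F u0) (Prod.fst : (U × Bool) × Fin k → U × Bool)).Adj x y) :
    cDbl cF x ≠ cDbl cF y := by
  rcases x with ⟨u, b⟩ | ⟨⟨u, b⟩, i⟩ <;> rcases y with ⟨v, c⟩ | ⟨⟨v, c⟩, i'⟩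
  · rcases h with ⟨h1, h2⟩ | ⟨h1, h2, h3⟩
    · have h1' : b = c := h1
      show xor b (cF u) ≠ xor c (cF v)
      have := hc _ _ h2
      rw [h1']
      revert this
      simp only
      cases c <;> cases cF u <;> cases cF v <;> simp
    · have h1' : b ≠ c := h1
      have h2' : u = u0 := h2
      have h3' : v = u0 := h3
      show xor b (cF u) ≠ xor c (cF v)
      rw [h2', h3']
      revert h1'
      cases b <;> cases c <;> cases cF u0 <;> simp
  · have h' : ((v, c) : U × Bool) = (u, b) := h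
    obtain ⟨h1, h2⟩ := Prod.mk.inj h'
    show xor b (cF u) ≠ ! xor c (cF v)
    rw [h1, h2]
    cases b <;> cases cF u <;> simp
  · have h' : ((u, b) : U × Bool) = (v, c) := h
    obtain ⟨h1, h2⟩ := Prod.mk.inj h'
    show (! xor b (cF u)) ≠ xor c (cF v)
    rw [h1, h2]
    cases c <;> cases cF v <;> simp
  · exact absurd h (by simp)

end

end Pool.Agent.J4.H78.AT
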