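import Pool.Agent.J4.H78.AT.All
import Pool.Agent.W979.TE.Lower

set_option autoImplicit false

open Classical

namespace Pool.Agent.J4.H78.AT

open Pool.Agent.J4.H78.GL

section

variable {U : Type}

/-- the edges assigned to the non-root `a` -/
noncomputable def asg' (k : ℕ) (par : U → U) (x : U × Fin (k + 1)) : Sym2 (U ⊕ (U × Fin k)) :=
  if h : x.2.val < k then s(Sum.inl x.1, Sum.inr (x.1, ⟨x.2.val, h⟩))
  else s(Sum.inl x.1, Sum.inl (par x.1))

lemma asg_inj' {F : SimpleGraph U} {k : ℕ} {c : U} {par : U → U}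
    (hpar : ∀ a, a ≠ c → F.Adj a (par a) ∧ F.dist (par a) c < F.dist a c) :
    Set.InjOn (asg' k par) {x | x.1 ≠ c} := by
  rintro ⟨a, i⟩ h3 ⟨b, j⟩ h4 h
  have h3' : a ≠ c := h3
  have h4' : b ≠ c := h4
  unfold asg' at h
  have hi := i.2
  have hj := j.2
  by_cases h1 : i.val < k
  · by_cases h2 : j.val < k
    · simp only [h1, h2, dif_pos] at h
      simp only [Sym2.eq_iff, Sum.inl.injEq, Sum.inr.injEq, Prod.mk.injEq, Fin.mk.injEq,
        reduceCtorEq, false_and, or_false] at h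
      exact Prod.ext h.1 (Fin.ext h.2.2)
    · simp [h1, h2] at h
  · by_cases h2 : j.val < k
    · simp [h1, h2] at h
    · simp only [h1, h2, dif_neg, not_false_iff] at h
      have hij' : i = j := Fin.ext (by omega)
      simp only [Sym2.eq_iff, Sum.inl.injEq] at h
      rcases h with ⟨h5, _⟩ | ⟨h5, h6⟩
      · rw [h5, hij']
      · exfalso
        have h7 := (hpar a h3').2
        have h8 := (hpar b h4').2
        rw [← h5] at h8
        rw [h6] at h7
        omega

/-- the number of the edges of the uniform tree which meet a set of non-roots -/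
lemma uniform_edges [Finite U] {F : SimpleGraph U} (hF : F.IsTree) (k : ℕ)
    (S : Set (U ⊕ (U × Fin k))) (hS : S ⊆ (Set.range Sum.inr)ᶜ) :
    ((k + 1) * Nat.card U - 1) * S.ncard ≤
      Nat.card U * eT (pend F (Prod.fst : U × Fin k → U)) S := by
  set T := pend F (Prod.fst : U × Fin k → U) with hT
  rw [compl_range_inr] at hS
  set S0 : Set U := {a | Sum.inl a ∈ S} with hS0
  have h1 : S = Sum.inl '' S0 := by
    ext x
    constructor
    · intro hx
      obtain ⟨a, rfl⟩ := hS hx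
      exact ⟨a, hx, rfl⟩
    · rintro ⟨a, ha, rfl⟩
      exact ha
  have h2 : S.ncard = S0.ncard := by
    rw [h1, Set.ncard_image_of_injective _ Sum.inl_injective]
  by_cases hall : ∀ c, c ∈ S0
  · -- all edges
    have h3 : S0 = Set.univ := Set.eq_univ_of_forall hall
    have h4 : S0.ncard = Nat.card U := by rw [h3, Set.ncard_univ]
    have h5 : eT T S = T.edgeSet.ncard := by
      unfold eT
      congr 1
      ext e
      constructor
      · exact fun h => h.1
      · intro h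
        refine ⟨h, ?_⟩
        induction e using Sym2.ind with
        | _ x y =>
          rcases x with u | d
          · exact ⟨Sum.inl u, hall u, Sym2.mem_mk_left _ _⟩
          · rcases y with v | e
            · exact ⟨Sum.inl v, hall v, Sym2.mem_mk_right _ _⟩
            · exact absurd h (by simp [hT])
    have h6 : Nat.card T.edgeSet + 1 = _ := (SimpleGraph.isTree_iff_connected_and_card.mp
    (pend_tree (f := (Prod.fst : U × Fin k → U)) hF)).2
    rw [Nat.card_coe_set_eq, Nat.card_sum, Nat.card_prod,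
      Nat.card_eq_fintype_card (α := Fin k), Fintype.card_fin] at h6
    have h7 : (k + 1) * Nat.card U = Nat.card U + Nat.card U * k := by ring
    rw [h2, h4, h5, mul_comm]
    apply Nat.mul_le_mul_left
    rw [h7]
    omega
  · push Not at hall
    obtain ⟨c, hc⟩ := hall
    choose! par hpar using fun a (h : a ≠ c) => closer hF.1 c a h
    have hne : ∀ x : U × Fin (k + 1), x ∈ (S0 ×ˢ (Set.univ : Set (Fin (k + 1)))) → x.1 ≠ c := by
      intro x hx h
      apply hc
      rw [← h]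
      exact hx.1
    have h3 : asg' k par '' (S0 ×ˢ Set.univ) ⊆ {e | e ∈ T.edgeSet ∧ ∃ v ∈ S, v ∈ e} := by
      rintro _ ⟨x, hx, rfl⟩
      unfold asg'
      by_cases h4 : x.2.val < k
      · rw [dif_pos h4]
        exact ⟨rfl, Sum.inl x.1, hx.1, Sym2.mem_mk_left _ _⟩
      · rw [dif_neg h4]
        exact ⟨(hpar _ (hne x hx)).1, Sum.inl x.1, hx.1, Sym2.mem_mk_left _ _⟩
    have h4 := Set.ncard_le_ncard h3 (Set.toFinite _)
    rw [Set.InjOn.ncard_image ((asg_inj' hpar).mono (fun x hx => hne x hx)), Set.ncard_prod,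
      Set.ncard_univ, Nat.card_eq_fintype_card (α := Fin (k + 1)), Fintype.card_fin] at h4
    have h5 : S0.ncard * (k + 1) ≤ eT T S := h4
    rw [h2]
    calc ((k + 1) * Nat.card U - 1) * S0.ncard ≤ ((k + 1) * Nat.card U) * S0.ncard :=
          Nat.mul_le_mul_right _ (Nat.sub_le _ _)
      _ = Nat.card U * (S0.ncard * (k + 1)) := by ring
      _ ≤ _ := Nat.mul_le_mul_left _ h5

lemma uniform_total [Finite U] {F : SimpleGraph U} (hF : F.IsTree) (k : ℕ) :
    eT (pend F (Prod.fst : U × Fin k → U)) (Set.range Sum.inr)ᶜ = (k + 1) * Nat.card U - 1 := by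
  set T := pend F (Prod.fst : U × Fin k → U) with hT
  have h5 : eT T (Set.range Sum.inr)ᶜ = T.edgeSet.ncard := by
    unfold eT
    congr 1
    ext e
    rw [compl_range_inr]
    constructor
    · exact fun h => h.1
    · intro h
      refine ⟨h, ?_⟩
      induction e using Sym2.ind with
      | _ x y =>
        rcases x with u | d
        · exact ⟨Sum.inl u, ⟨u, rfl⟩, Sym2.mem_mk_left _ _⟩
        · rcases y with v | e
          · exact ⟨Sum.inl v, ⟨v, rfl⟩, Sym2.mem_mk_right _ _⟩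
          · exact absurd h (by simp [hT])
  have h6 : Nat.card T.edgeSet + 1 = _ := (SimpleGraph.isTree_iff_connected_and_card.mp
    (pend_tree (f := (Prod.fst : U × Fin k → U)) hF)).2
  rw [Nat.card_coe_set_eq, Nat.card_sum, Nat.card_prod,
    Nat.card_eq_fintype_card (α := Fin k), Fintype.card_fin] at h6
  have h7 : (k + 1) * Nat.card U = Nat.card U + Nat.card U * k := by ring
  rw [h5, h7]
  omega

/-- `ex(n, t*T_R) ≥ c n ^ α` for some `t`, `c > 0` and all large `n` -/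
def BlowupLower {W : Type} (T : SimpleGraph W) (R : Set W) (α : ℝ) : Prop :=
  ∃ t : ℕ, 0 < t ∧ ∃ c : ℝ, 0 < c ∧ ∃ n0 : ℕ, ∀ n : ℕ, n0 ≤ n → ∃ G : SimpleGraph (Fin n),
    ¬ ContainsBlowup T R t G ∧ c * (n : ℝ) ^ α ≤ (G.edgeSet.ncard : ℝ)

/-- the uniform trees over stars -/
theorem uniform_lower (k m : ℕ) (hk : 1 ≤ k) :
    ∃ (W : Type) (_ : Finite W) (T : SimpleGraph W) (R : Set W), T.IsTree ∧ R.Nonempty ∧
      Rᶜ.Nonempty ∧ (∀ u ∈ R, ∀ v ∈ R, ¬ T.Adj u v) ∧ (T.induce Rᶜ).Connected ∧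
      (∀ a, a ∉ R → ({u | u ∈ R ∧ T.Adj a u} : Set W).ncard = k) ∧
      BalancedDensity T R ((k : ℝ) + 1 - 1 / ((m : ℝ) + 1)) ∧
      BlowupLower T R (2 - 1 / ((k : ℝ) + 1 - 1 / ((m : ℝ) + 1))) := by
  let F : SimpleGraph (Unit ⊕ Fin m) := pend (⊥ : SimpleGraph Unit) (fun _ : Fin m => ())
  have hF : F.IsTree := pend_tree SimpleGraph.IsTree.of_subsingleton
  have hcard : Nat.card (Unit ⊕ Fin m) = m + 1 := by
    have hu : Nat.card Unit = 1 := Nat.card_unique
    rw [Nat.card_sum, hu, Nat.card_eq_fintype_card (α := Fin m), Fintype.card_fin, add_comm]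
  set T := pend F (Prod.fst : (Unit ⊕ Fin m) × Fin k → (Unit ⊕ Fin m)) with hT
  set R : Set ((Unit ⊕ Fin m) ⊕ ((Unit ⊕ Fin m) × Fin k)) := Set.range Sum.inr with hR
  have hRc : Rᶜ = Set.range Sum.inl := compl_range_inr
  have hRcn : (Rᶜ : Set _).ncard = m + 1 := by rw [hRc, ncard_range_inl, hcard]
  have htot : eT T Rᶜ = (k + 1) * (m + 1) - 1 := by
    have := uniform_total hF k
    rw [hcard] at this
    exact this
  have hkm : 1 ≤ (k + 1) * (m + 1) := Nat.mul_pos (by omega) (by omega)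
  have hS : ∀ S : Set _, S ⊆ Rᶜ → ((k + 1) * (m + 1) - 1) * S.ncard ≤ (m + 1) * eT T S := by
    intro S hSR
    have := uniform_edges hF k S hSR
    rw [hcard] at this
    exact this
  have hm1 : (0 : ℝ) < (m : ℝ) + 1 := by positivity
  have hρ : (k : ℝ) + 1 - 1 / ((m : ℝ) + 1) = (((k + 1) * (m + 1) - 1 : ℕ) : ℝ) / ((m : ℝ) + 1) := by
    rw [Nat.cast_sub hkm]
    push_cast
    field_simp
  have hbal : BalancedDensity T R ((k : ℝ) + 1 - 1 / ((m : ℝ) + 1)) := by
    refine ⟨?_, ?_⟩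
    · rw [htot, hRcn, hρ]
      norm_num
    · intro S hSne hSR
      have hSpos : (0 : ℝ) < S.ncard := by exact_mod_cast (Set.ncard_pos (Set.toFinite S)).mpr hSne
      rw [hρ, div_le_div_iff₀ hm1 hSpos]
      have h1 : ((((k + 1) * (m + 1) - 1) * S.ncard : ℕ) : ℝ) ≤ (((m + 1) * eT T S : ℕ) : ℝ) := by
        exact_mod_cast hS S hSR
      push_cast at h1
      push_cast
      linarith
  refine ⟨_, inferInstance, T, R, pend_tree hF, ?_, ?_, ?_, ?_, ?_, hbal, ?_⟩
  · exact ⟨_, (Sum.inl (), ⟨0, by omega⟩), rfl⟩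
  · rw [hRc]
    exact ⟨_, Sum.inl (), rfl⟩
  · rintro _ ⟨u, rfl⟩ _ ⟨v, rfl⟩ h
    exact h
  · have h1 : ∀ a, (Sum.inl a : (Unit ⊕ Fin m) ⊕ ((Unit ⊕ Fin m) × Fin k)) ∈ Rᶜ := by
      intro a
      rw [hRc]
      exact ⟨a, rfl⟩
    let φ : F →g T.induce Rᶜ := ⟨fun a => ⟨Sum.inl a, h1 a⟩, fun {a b} h => h⟩
    have h2 : ∀ x : (Rᶜ : Set _), ∃ a, φ a = x := by
      rintro ⟨x, hx⟩
      have := hx
      rw [hRc] at this
      obtain ⟨a, rfl⟩ := this
      exact ⟨a, rfl⟩
    have : Nonempty (Rᶜ : Set ((Unit ⊕ Fin m) ⊕ ((Unit ⊕ Fin m) × Fin k))) := ⟨φ (Sum.inl ())⟩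
    refine ⟨fun x y => ?_⟩
    obtain ⟨a, rfl⟩ := h2 x
    obtain ⟨b, rfl⟩ := h2 y
    exact (hF.1.preconnected a b).map φ
  · intro x hx
    have hx' : x ∈ Rᶜ := hx
    rw [hRc] at hx'
    obtain ⟨a, rfl⟩ := hx'
    have h1 : {u | u ∈ R ∧ T.Adj (Sum.inl a) u} = (fun i : Fin k =>
        (Sum.inr (a, i) : (Unit ⊕ Fin m) ⊕ ((Unit ⊕ Fin m) × Fin k))) '' Set.univ := by
      ext y
      constructor
      · rintro ⟨⟨⟨b, i⟩, rfl⟩, h⟩
        exact ⟨i, trivial, by rw [show b = a from h]⟩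
      · rintro ⟨i, _, rfl⟩
        exact ⟨⟨_, rfl⟩, rfl⟩
    rw [h1, Set.ncard_image_of_injective _ (by
      intro i j h
      have := Sum.inr.inj h
      exact congrArg Prod.snd this), Set.ncard_univ, Nat.card_eq_fintype_card, Fintype.card_fin]
  · have hkm2 : 2 ≤ (k + 1) * (m + 1) := by
      calc 2 ≤ k + 1 := by omega
        _ ≤ (k + 1) * (m + 1) := Nat.le_mul_of_pos_right _ (by omega)
    have := Fintype.ofFinite ((Unit ⊕ Fin m) ⊕ ((Unit ⊕ Fin m) × Fin k))
    obtain ⟨t, ht, c, hc, n0, hlow⟩ := Pool.Agent.W979.TE.lower _ T R (m + 1)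
      ((k + 1) * (m + 1) - 1) hRcn.symm htot.symm (by omega) (by
        have : m + 1 ≤ (k + 1) * (m + 1) - (m + 1) := by
          have : (k + 1) * (m + 1) = k * (m + 1) + (m + 1) := by ring
          have h2 : m + 1 ≤ k * (m + 1) := Nat.le_mul_of_pos_left _ (by omega)
          omega
        omega) hS
    refine ⟨t, ht, c, hc, n0, fun n hn => ?_⟩
    obtain ⟨G, hG, hcard'⟩ := hlow n hn
    refine ⟨G, fun h => hG ?_, ?_⟩
    · obtain ⟨f, hf1, hf2⟩ := h
      refine ⟨f, hf1, fun a b hab => ?_⟩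
      have hab' := hab
      rw [Pool.Agent.W979.TE.BU, SimpleGraph.fromRel_adj] at hab'
      rcases hab'.2 with ⟨h1, h2⟩ | ⟨h1, h2⟩
      · exact hf2 a b h1 h2
      · refine (hf2 b a h1 ?_).symm
        rcases h2 with h2 | h2 | h2
        · exact Or.inl h2
        · exact Or.inr (Or.inl h2)
        · exact Or.inr (Or.inr h2)
    · rw [hρ, one_div_div]
      have e : ((m : ℝ) + 1) / (((k + 1) * (m + 1) - 1 : ℕ) : ℝ) =
          (((m + 1 : ℕ)) : ℝ) / (((k + 1) * (m + 1) - 1 : ℕ) : ℝ) := by push_cast; rfl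
      rw [e]
      exact hcard'

end

end Pool.Agent.J4.H78.AT
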