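import Pool.Agent.J4.H78.AT.Glue2
import Pool.Agent.J4.H78.GL.Dens

set_option autoImplicit false

open Classical

namespace Pool.Agent.J4.H78.AT

open Pool.Agent.J4.H78.GL

section

variable {W : Type}

lemma emb_of_card {α β : Type} [Finite α] [Finite β] (h : Nat.card α ≤ Nat.card β) :
    Nonempty (α ↪ β) := by
  have := Fintype.ofFinite α
  have := Fintype.ofFinite β
  exact Function.Embedding.nonempty_of_card_le
    (by rwa [← Nat.card_eq_fintype_card, ← Nat.card_eq_fintype_card])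

/-- in a piece every root has only one neighbour -/
lemma root_nb {P : SimpleGraph W} {Q : Set W} (hP : IsPiece P Q) {q a a' : W} (hq : q ∈ Q)
    (h : P.Adj q a) (h' : P.Adj q a') : a = a' := by
  by_contra hne
  have ha : a ∉ Q := fun h1 => hP.indep q hq a h1 h
  have ha' : a' ∉ Q := fun h1 => hP.indep q hq a' h1 h'
  obtain ⟨p⟩ := hP.conn.preconnected ⟨a, ha⟩ ⟨a', ha'⟩
  obtain ⟨p', hp'⟩ := walk_of_induce _ _ p
  have h1 : (SimpleGraph.Walk.cons h.symm (SimpleGraph.Walk.cons h' SimpleGraph.Walk.nil) :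
      P.Walk a a').IsPath := by
    rw [SimpleGraph.Walk.cons_isPath_iff, SimpleGraph.Walk.cons_isPath_iff]
    refine ⟨⟨SimpleGraph.Walk.IsPath.nil, ?_⟩, ?_⟩
    · rw [SimpleGraph.Walk.support_nil, List.mem_singleton]
      exact h'.ne
    · rw [SimpleGraph.Walk.support_cons, SimpleGraph.Walk.support_nil, List.mem_cons,
        List.mem_singleton]
      rintro (h2 | h2)
      · exact h.ne h2.symm
      · exact hne h2
  have h2 := hP.tree.2.path_unique ⟨p'.bypass, p'.bypass_isPath⟩ ⟨_, h1⟩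
  have h3 : q ∈ p'.bypass.support := by
    have h4 : p'.bypass = _ := congrArg Subtype.val h2
    rw [h4, SimpleGraph.Walk.support_cons, SimpleGraph.Walk.support_cons]
    simp
  exact hp' q (p'.support_bypass_subset_support h3) hq

lemma emb_pend {D : Type} {P : SimpleGraph W} {Q : Set W} (hP : IsPiece P Q)
    (f : D → (Qᶜ : Set W))
    (hf : ∀ a : (Qᶜ : Set W), ∃ g : {q // q ∈ Q ∧ P.Adj a q} → D, Function.Injective g ∧
      ∀ x, f (g x) = a) :
    ∃ j : W → (Qᶜ : Set W) ⊕ D, Function.Injective j ∧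
      (∀ a, j a ∈ Set.range (Sum.inr : D → (Qᶜ : Set W) ⊕ D) ↔ a ∈ Q) ∧
      (∀ a b, P.Adj a b → (pend (P.induce Qᶜ) f).Adj (j a) (j b)) ∧
      (∀ a (h : a ∉ Q), j a = Sum.inl ⟨a, h⟩) := by
  choose g hg1 hg2 using hf
  have hnb := nb_of_piece hP
  choose! nb hnb using hnb
  have hnbQ : ∀ q ∈ Q, nb q ∉ Q := fun q hq h => hP.indep q hq _ h (hnb q hq)
  set j : W → (Qᶜ : Set W) ⊕ D := fun w =>
    if h : w ∈ Q then Sum.inr (g ⟨nb w, hnbQ w h⟩ ⟨w, h, (hnb w h).symm⟩) else Sum.inl ⟨w, h⟩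
    with hj
  have hjQ : ∀ w (h : w ∈ Q), j w = Sum.inr (g ⟨nb w, hnbQ w h⟩ ⟨w, h, (hnb w h).symm⟩) := by
    intro w h
    simp only [hj, dif_pos h]
  have hjN : ∀ w (h : w ∉ Q), j w = Sum.inl ⟨w, h⟩ := by
    intro w h
    simp only [hj, dif_neg h]
  have key : ∀ w (h : w ∈ Q), ∀ a (ha : a ∉ Q), P.Adj a w →
      f (g ⟨nb w, hnbQ w h⟩ ⟨w, h, (hnb w h).symm⟩) = ⟨a, ha⟩ := by
    intro w h a ha hadj
    rw [hg2]
    exact Subtype.ext (root_nb hP h (hnb w h) hadj.symm)
  refine ⟨j, ?_, ?_, ?_, hjN⟩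
  · intro w w' h
    by_cases hw : w ∈ Q <;> by_cases hw' : w' ∈ Q
    · rw [hjQ w hw, hjQ w' hw'] at h
      have h1 := Sum.inr.inj h
      have h2 := congrArg f h1
      rw [hg2, hg2] at h2
      have h3 : nb w = nb w' := congrArg Subtype.val h2
      have h4 : ∀ (x : (Qᶜ : Set W)) (y : {q // q ∈ Q ∧ P.Adj x q})
          (x' : (Qᶜ : Set W)) (y' : {q // q ∈ Q ∧ P.Adj x' q}), x = x' → g x y = g x' y' →
          y.1 = y'.1 := by
        rintro x y x' y' rfl h
        exact congrArg Subtype.val (hg1 x h)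
      exact h4 _ _ _ _ h2 h1
    · rw [hjQ w hw, hjN w' hw'] at h
      exact absurd h (by simp)
    · rw [hjN w hw, hjQ w' hw'] at h
      exact absurd h (by simp)
    · rw [hjN w hw, hjN w' hw'] at h
      exact congrArg Subtype.val (Sum.inl.inj h)
  · intro a
    by_cases ha : a ∈ Q
    · rw [hjQ a ha]
      exact ⟨fun _ => ha, fun _ => ⟨_, rfl⟩⟩
    · rw [hjN a ha]
      constructor
      · rintro ⟨d, hd⟩
        exact absurd hd (by simp)
      · exact fun h => absurd h ha
  · intro a b hab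
    by_cases ha : a ∈ Q <;> by_cases hb : b ∈ Q
    · exact absurd hab (hP.indep a ha b hb)
    · rw [hjQ a ha, hjN b hb, pend_rl]
      exact key a ha b hb hab.symm
    · rw [hjN a ha, hjQ b hb, pend_lr]
      exact key b hb a ha hab
    · rw [hjN a ha, hjN b hb, pend_ll]
      exact hab

lemma piece_tree {P : SimpleGraph W} {Q : Set W} (hP : IsPiece P Q) : (P.induce Qᶜ).IsTree :=
  ⟨hP.conn, hP.tree.2.induce _⟩

/-- a piece with at most `k` root neighbours at each non-root is contained in a symmetric one -/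
lemma in_swap [Finite W] {P : SimpleGraph W} {Q : Set W} {c : W → Bool} (hP : IsPiece P Q)
    (hc : ∀ a b, P.Adj a b → c a ≠ c b) {k : ℕ} (hk1 : 1 ≤ k)
    (hk : ∀ a, a ∉ Q → ({q | q ∈ Q ∧ P.Adj a q} : Set W).ncard ≤ k) :
    InSwap P Q c (2 - 1 / ((k : ℝ) + 1)) := by
  obtain ⟨u0, hu0⟩ := hP.ne'
  set F := P.induce Qᶜ with hF
  have hFt : F.IsTree := piece_tree hP
  obtain ⟨j, h1, h2, h3, h4⟩ := emb_pend hP (Prod.fst : (Qᶜ : Set W) × Fin k → (Qᶜ : Set W)) (by
    intro a
    have h5 := hk a.1 a.2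
    have h6 : Nat.card {q // q ∈ Q ∧ P.Adj a q} ≤ Nat.card (Fin k) := by
      rw [Nat.card_eq_fintype_card (α := Fin k), Fintype.card_fin]
      rw [← Nat.card_coe_set_eq] at h5
      exact h5
    obtain ⟨g⟩ := emb_of_card h6
    refine ⟨fun x => (a, g x), fun x y h => g.injective (congrArg Prod.snd h), fun x => rfl⟩)
  set cF : (Qᶜ : Set W) → Bool := fun u => c u.1 with hcF
  have hcF' : ∀ a b, F.Adj a b → cF a ≠ cF b := fun a b h => hc _ _ h
  let m : (Qᶜ : Set W) ⊕ ((Qᶜ : Set W) × Fin k) →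
      ((Qᶜ : Set W) × Bool) ⊕ (((Qᶜ : Set W) × Bool) × Fin k) :=
    Sum.map (fun u => (u, false)) (fun x => ((x.1, false), x.2))
  have hm : Function.Injective m := by
    apply Function.Injective.sumMap
    · intro u v h
      exact congrArg Prod.fst h
    · rintro ⟨u, i⟩ ⟨v, i'⟩ h
      simp only [Prod.mk.injEq, and_true] at h
      exact Prod.ext h.1 h.2
  refine ⟨_, inferInstance, pend (dbl F ⟨u0, hu0⟩) (Prod.fst : ((Qᶜ : Set W) × Bool) × Fin k → _),
    Set.range Sum.inr, cDbl cF, fun w => m (j w), ?_, ?_, ?_, cDbl_proper hcF',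
    bound_fst (dbl_tree hFt) hk1, swap_dbl F _ cF, hm.comp h1, ?_, ?_, ?_⟩
  · exact pend_connected (dbl_connected hFt.1)
  · exact ⟨_, ((⟨u0, hu0⟩, false), ⟨0, by omega⟩), rfl⟩
  · rintro _ ⟨d, rfl⟩
    exact ⟨Sum.inl d.1, rfl⟩
  · intro a
    rw [← h2 a]
    show m (j a) ∈ _ ↔ _
    generalize j a = x
    rcases x with u | d
    · constructor
      · rintro ⟨y, hy⟩
        exact absurd hy (by simp [m])
      · rintro ⟨y, hy⟩
        exact absurd hy (by simp)
    · exact ⟨fun _ => ⟨d, rfl⟩, fun _ => ⟨((d.1, false), d.2), rfl⟩⟩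
  · intro a b hab
    have h5 := h3 a b hab
    show (pend (dbl F ⟨u0, hu0⟩) (Prod.fst : ((Qᶜ : Set W) × Bool) × Fin k → _)).Adj
      (m (j a)) (m (j b))
    revert h5
    generalize j a = x
    generalize j b = y
    intro h5
    rcases x with u | ⟨u, i⟩ <;> rcases y with v | ⟨v, i'⟩
    · exact Or.inl ⟨rfl, h5⟩
    · show ((v, false) : (Qᶜ : Set W) × Bool) = (u, false)
      rw [show v = u from h5]
    · show ((u, false) : (Qᶜ : Set W) × Bool) = (v, false)
      rw [show u = v from h5]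
    · exact h5
  · intro a
    by_cases ha : a ∈ Q
    · obtain ⟨b, hb⟩ := nb_of_piece hP a ha
      have hbQ : b ∉ Q := fun h => hP.indep a ha b h hb
      have h5 := h3 a b hb
      have h6 := (h2 a).mpr ha
      obtain ⟨⟨u, i⟩, hu⟩ := h6
      rw [← hu, h4 b hbQ, pend_rl] at h5
      show cDbl cF (m (j a)) = c a
      rw [← hu]
      show (! xor false (cF u)) = c a
      rw [show u = ⟨b, hbQ⟩ from h5]
      have := hc a b hb
      show (! xor false (c b)) = c a
      revert this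
      cases c a <;> cases c b <;> simp
    · show cDbl cF (m (j a)) = c a
      rw [h4 a ha]
      show xor false (c a) = c a
      simp

/-- the bound for pieces with at most one exceptional non-root -/
lemma bound_piece [Finite W] {P : SimpleGraph W} {Q : Set W} (hP : IsPiece P Q)
    {k : ℕ} (hk1 : 1 ≤ k) (c : W) (hcQ : c ∉ Q)
    (hk : ∀ a, a ∉ Q → a ≠ c → ({q | q ∈ Q ∧ P.Adj a q} : Set W).ncard ≤ k)
    (hkc : ({q | q ∈ Q ∧ P.Adj c q} : Set W).ncard ≤ k + 1) :
    BlowupBound P Q (2 - 1 / ((k : ℝ) + 1)) := by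
  have hFt := piece_tree hP
  obtain ⟨j, h1, h2, h3, _⟩ := emb_pend hP (att k (⟨c, hcQ⟩ : (Qᶜ : Set W))) (by
    intro a
    by_cases hac : a = ⟨c, hcQ⟩
    · subst hac
      have h6 : Nat.card {q // q ∈ Q ∧ P.Adj c q} ≤ Nat.card (Fin k ⊕ Unit) := by
        have hu : Nat.card Unit = 1 := Nat.card_unique
        rw [Nat.card_sum, hu, Nat.card_eq_fintype_card (α := Fin k), Fintype.card_fin]
        rw [← Nat.card_coe_set_eq] at hkc
        exact hkc
      obtain ⟨g⟩ := emb_of_card h6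
      refine ⟨fun x => Sum.map (fun i => ((⟨c, hcQ⟩ : (Qᶜ : Set W)), i)) id (g x), ?_, ?_⟩
      · have h7 : Function.Injective (Sum.map (fun i : Fin k => ((⟨c, hcQ⟩ : (Qᶜ : Set W)), i))
            (id : Unit → Unit)) := by
          apply Function.Injective.sumMap
          · intro u v h
            exact congrArg Prod.snd h
          · exact Function.injective_id
        exact h7.comp g.injective
      · intro x
        show att k _ (Sum.map _ id (g x)) = _
        generalize g x = y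
        rcases y with i | u
        · rfl
        · rfl
    · have h5 := hk a.1 a.2 (fun h => hac (Subtype.ext h))
      have h6 : Nat.card {q // q ∈ Q ∧ P.Adj a q} ≤ Nat.card (Fin k) := by
        rw [Nat.card_eq_fintype_card (α := Fin k), Fintype.card_fin]
        rw [← Nat.card_coe_set_eq] at h5
        exact h5
      obtain ⟨g⟩ := emb_of_card h6
      refine ⟨fun x => Sum.inl (a, g x), fun x y h =>
        g.injective (congrArg Prod.snd (Sum.inl.inj h)), fun x => rfl⟩)
  exact bound_mono (T := pend (P.induce Qᶜ) (att k (⟨c, hcQ⟩ : (Qᶜ : Set W))))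
    (R := Set.range Sum.inr) j h1 h2 h3 (bound_int hFt hk1 ⟨c, hcQ⟩)

end

end Pool.Agent.J4.H78.AT
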